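import Pool.Agent.Helper36.RI.Goals

/-!
# Project RF, existence part: packet IVV (the coframe stays the inverse of the frame)
-/

namespace Pool.Agent.Helper65.RI

open Set Filter Topology Pool.Agent.Helper36.RS Pool.Agent.Helper36.RI Pool.Agent.Helper73.RF
open Pool.Agent.Helper47.RF hiding eps

theorem mat_id (a b s : Fin 3 → Fin 3 → ℝ) (c d : Fin 3) :
    ∑ i, ((∑ e, s c e * a e i) * b i d + a c i * (-∑ e, b i e * s e d)) =
      ∑ e, (s c e * (∑ i, a e i * b i d - if e = d then 1 else 0) -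
        (∑ i, a c i * b i e - if c = e then 1 else 0) * s e d) := by
  fin_cases c <;> fin_cases d <;> simp [Fin.sum_univ_three] <;> ring

theorem mat_ode (τ : ℝ) (a b s : ℝ → Fin 3 → Fin 3 → ℝ)
    (ha : ∀ c i, ∀ t ∈ Icc 0 τ,
      HasDerivWithinAt (fun r => a r c i) (∑ e, s t c e * a t e i) (Icc 0 τ) t)
    (hb : ∀ i c, ∀ t ∈ Icc 0 τ,
      HasDerivWithinAt (fun r => b r i c) (-∑ e, b t i e * s t e c) (Icc 0 τ) t)
    (hs : ∀ c d, ContinuousOn (fun t => s t c d) (Icc 0 τ))
    (h0 : ∀ c d, ∑ i, a 0 c i * b 0 i d = if c = d then 1 else 0) :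
    ∀ t ∈ Icc 0 τ, ∀ c d, ∑ i, a t c i * b t i d = if c = d then 1 else 0 := by
  classical
  have hb0 : ∀ c d, ∃ C : ℝ, ∀ t ∈ Icc 0 τ, ‖s t c d‖ ≤ C := fun c d =>
    isCompact_Icc.exists_bound_of_continuousOn (hs c d)
  choose C0 hC0 using hb0
  let C : ℝ := ∑ c, ∑ d, |C0 c d|
  have hC : ∀ t ∈ Icc 0 τ, ∀ c d, |s t c d| ≤ C := by
    intro t ht c d
    calc |s t c d| ≤ C0 c d := hC0 c d t ht
      _ ≤ |C0 c d| := le_abs_self _
      _ ≤ ∑ d, |C0 c d| := Finset.single_le_sum (f := fun d => |C0 c d|)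
          (fun _ _ => abs_nonneg _) (Finset.mem_univ d)
      _ ≤ C := Finset.single_le_sum (f := fun c => ∑ d, |C0 c d|)
          (fun _ _ => Finset.sum_nonneg fun _ _ => abs_nonneg _) (Finset.mem_univ c)
  have hCn : 0 ≤ C := Finset.sum_nonneg fun _ _ => Finset.sum_nonneg fun _ _ => abs_nonneg _
  let Y : ℝ → Fin 3 → Fin 3 → ℝ := fun t c d => ∑ i, a t c i * b t i d - if c = d then 1 else 0
  let Y' : ℝ → Fin 3 → Fin 3 → ℝ := fun t c d =>
    ∑ e, (s t c e * Y t e d - Y t c e * s t e d)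
  have hder : ∀ t ∈ Icc 0 τ, HasDerivWithinAt Y (Y' t) (Icc 0 τ) t := by
    intro t ht
    rw [hasDerivWithinAt_pi]
    intro c
    rw [hasDerivWithinAt_pi]
    intro d
    have h1 : HasDerivWithinAt (fun r => ∑ i, a r c i * b r i d)
        (∑ i, ((∑ e, s t c e * a t e i) * b t i d + a t c i * (-∑ e, b t i e * s t e d)))
        (Icc 0 τ) t :=
      HasDerivWithinAt.fun_sum fun i _ => (ha c i t ht).mul (hb i d t ht)
    have h2 := h1.sub_const (if c = d then (1 : ℝ) else 0)
    rw [mat_id] at h2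
    exact h2
  have hnY : ∀ t c d, |Y t c d| ≤ ‖Y t‖ := by
    intro t c d
    exact (norm_le_pi_norm (Y t c) d).trans (norm_le_pi_norm (Y t) c)
  have hbd : ∀ t ∈ Icc 0 τ, ‖Y' t‖ ≤ (6 * C) * ‖Y t‖ := by
    intro t ht
    have hr : 0 ≤ (6 * C) * ‖Y t‖ := by positivity
    rw [pi_norm_le_iff_of_nonneg hr]
    intro c
    rw [pi_norm_le_iff_of_nonneg hr]
    intro d
    change |∑ e, (s t c e * Y t e d - Y t c e * s t e d)| ≤ _
    calc |∑ e, (s t c e * Y t e d - Y t c e * s t e d)|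
        ≤ ∑ e, |s t c e * Y t e d - Y t c e * s t e d| := Finset.abs_sum_le_sum_abs _ _
      _ ≤ ∑ _e : Fin 3, 2 * (C * ‖Y t‖) := by
          refine Finset.sum_le_sum fun e _ => ?_
          have h1 : |s t c e * Y t e d| ≤ C * ‖Y t‖ := by
            rw [abs_mul]
            exact mul_le_mul (hC t ht c e) (hnY t e d) (abs_nonneg _) hCn
          have h2 : |Y t c e * s t e d| ≤ C * ‖Y t‖ := by
            rw [abs_mul, mul_comm]
            exact mul_le_mul (hC t ht e d) (hnY t c e) (abs_nonneg _) hCn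
          calc |s t c e * Y t e d - Y t c e * s t e d|
              ≤ |s t c e * Y t e d| + |Y t c e * s t e d| := abs_sub _ _
            _ ≤ 2 * (C * ‖Y t‖) := by linarith
      _ = (6 * C) * ‖Y t‖ := by
          rw [Finset.sum_const, Finset.card_univ, Fintype.card_fin, nsmul_eq_mul]
          push_cast
          ring
  have hz := eq_zero_of_abs_deriv_le_mul_abs_self_of_eq_zero_right (f := Y) (f' := Y')
    (K := 6 * C) (a := 0) (b := τ) (fun t ht => (hder t ht).continuousWithinAt)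
    (fun t ht => (hder t (Ico_subset_Icc_self ht)).mono_of_mem_nhdsWithin
      (Icc_mem_nhdsGE_of_mem ht))
    (by
      funext c d
      change ∑ i, a 0 c i * b 0 i d - (if c = d then 1 else 0) = 0
      rw [h0, sub_self])
    (fun t ht => hbd t (Ico_subset_Icc_self ht))
  intro t ht c d
  have h := congrFun (congrFun (hz t ht) c) d
  change ∑ i, a t c i * b t i d - (if c = d then 1 else 0) = 0 at h
  linarith

theorem goal_IVV : Pool.Agent.Helper36.RI.G_IVV := by
  intro hCV τ A θ P hFS h0 t ht x hx c d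
  have hA : ∀ c i, ∀ t ∈ Icc 0 τ, HasDerivWithinAt (fun r => (A r c i).1 x)
      ((FAf (A t) (P t) c i).1 x) (Icc 0 τ) t := fun c i t ht =>
    (hCV τ _ _ (hFS.dA c i)).der [] x hx t ht
  have hT : ∀ i c, ∀ t ∈ Icc 0 τ, HasDerivWithinAt (fun r => (θ r i c).1 x)
      ((Ftf (θ t) (P t) i c).1 x) (Icc 0 τ) t := fun i c t ht =>
    (hCV τ _ _ (hFS.dt i c)).der [] x hx t ht
  have hP : ∀ c d, ContinuousOn (fun t => (P t c d).1 x) (Icc 0 τ) := fun c d t ht =>
    ((hCV τ _ _ (hFS.dP c d)).der [] x hx t ht).continuousWithinAt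
  have hS : ∀ c d, ContinuousOn (fun t => (Sf (P t) c d).1 x) (Icc 0 τ) := by
    intro c d
    have h1 : (fun t => (Sf (P t) c d).1 x) = fun t =>
        (if c = d then ∑ e, (P t e e).1 x else 0) - (P t c d).1 x := by
      funext t
      by_cases h : c = d
      · simp [Sf, trP, h]
      · simp [Sf, h]
    rw [h1]
    refine ContinuousOn.sub ?_ (hP c d)
    by_cases h : c = d
    · simp only [h, if_true]
      exact continuousOn_finsetSum _ fun e _ => hP e e
    · simp only [h, if_false]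
      exact continuousOn_const
  refine mat_ode τ (fun t c i => (A t c i).1 x) (fun t i c => (θ t i c).1 x)
    (fun t c d => (Sf (P t) c d).1 x) ?_ ?_ hS (h0 x hx) t ht c d
  · intro c i t ht
    have h := hA c i t ht
    have e : (FAf (A t) (P t) c i).1 x = ∑ e, (Sf (P t) c e).1 x * (A t e i).1 x := by
      simp [FAf]
    rw [e] at h
    exact h
  · intro i c t ht
    have h := hT i c t ht
    have e : (Ftf (θ t) (P t) i c).1 x = -∑ e, (θ t i e).1 x * (Sf (P t) e c).1 x := by
      simp [Ftf]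
    rw [e] at h
    exact h

end Pool.Agent.Helper65.RI
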